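import Mathlib
import Pool.Agent.Y234.EM.Stm

/-!
# Project EM: a polynomial ring is free over a monic map
-/

set_option autoImplicit false

namespace Pool.Agent.Y455.EM

open MvPolynomial

variable {R : Type} [CommRing R] {v : ℕ}

/-- All exponents of `G` have degree less than `d`. -/
def Lt (d : ℕ) (G : MvPolynomial (Fin v) R) : Prop :=
  ∀ e : Fin v →₀ ℕ, d ≤ ∑ i, e i → coeff e G = 0

lemma Lt.zero (d : ℕ) : Lt d (0 : MvPolynomial (Fin v) R) := fun _ _ => by simp

lemma Lt.add {d : ℕ} {A B : MvPolynomial (Fin v) R} (hA : Lt d A) (hB : Lt d B) :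
    Lt d (A + B) := fun e he => by rw [coeff_add, hA e he, hB e he, add_zero]

lemma Lt.smul {d : ℕ} {A : MvPolynomial (Fin v) R} (r : R) (hA : Lt d A) :
    Lt d (r • A) := fun e he => by rw [coeff_smul, hA e he, smul_zero]

lemma Lt.neg {d : ℕ} {A : MvPolynomial (Fin v) R} (hA : Lt d A) :
    Lt d (-A) := fun e he => by rw [coeff_neg, hA e he, neg_zero]

lemma Lt.mono {d d' : ℕ} {A : MvPolynomial (Fin v) R} (hA : Lt d A) (h : d ≤ d') :
    Lt d' A := fun e he => hA e (h.trans he)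

lemma Lt.sum {ι : Type} {d : ℕ} (s : Finset ι) (A : ι → MvPolynomial (Fin v) R)
    (h : ∀ i ∈ s, Lt d (A i)) : Lt d (∑ i ∈ s, A i) := fun e he => by
  rw [coeff_sum]
  exact Finset.sum_eq_zero fun i hi => h i hi e he

lemma Lt.eq_zero {A : MvPolynomial (Fin v) R} (hA : Lt 0 A) : A = 0 := by
  ext e
  rw [hA e (Nat.zero_le _), coeff_zero]

lemma Lt.of_totalDegree {d : ℕ} {A : MvPolynomial (Fin v) R} (h : A.totalDegree < d) :
    Lt d A := fun e he => by
  apply coeff_eq_zero_of_totalDegree_lt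
  refine lt_of_lt_of_le h (he.trans (le_of_eq ?_))
  symm
  apply Finset.sum_subset (Finset.subset_univ _)
  intro i _ hi
  simpa using hi

lemma Lt.mul {d d' : ℕ} {A B : MvPolynomial (Fin v) R} (hA : Lt d A) (hB : Lt (d' + 1) B) :
    Lt (d + d') (A * B) := fun e he => by
  rw [coeff_mul]
  apply Finset.sum_eq_zero
  rintro ⟨p, q⟩ hpq
  rw [Finset.HasAntidiagonal.mem_antidiagonal] at hpq
  simp only at hpq
  subst hpq
  have : ∑ i, (p + q) i = ∑ i, p i + ∑ i, q i := by
    rw [← Finset.sum_add_distrib]; rfl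
  rw [this] at he
  by_cases h1 : d ≤ ∑ i, p i
  · rw [hA p h1, zero_mul]
  · rw [hB q (by omega), mul_zero]

/-- `A` and `B` agree up to terms of degree less than `d`, both of degree at most `d`. -/
def Eq' (d : ℕ) (A B : MvPolynomial (Fin v) R) : Prop := Lt (d + 1) B ∧ Lt d (A - B)

lemma Eq'.left {d : ℕ} {A B : MvPolynomial (Fin v) R} (h : Eq' d A B) : Lt (d + 1) A := by
  have := (h.2.mono (Nat.le_succ d)).add h.1
  rwa [sub_add_cancel] at this

lemma Eq'.mul {d d' : ℕ} {A B A' B' : MvPolynomial (Fin v) R} (h : Eq' d A B)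
    (h' : Eq' d' A' B') : Eq' (d + d') (A * A') (B * B') := by
  refine ⟨?_, ?_⟩
  · have := h.1.mul h'.1
    exact this.mono (by omega)
  · have e1 : A * A' - B * B' = (A - B) * A' + (A' - B') * B := by ring
    rw [e1]
    exact (h.2.mul h'.left).add ((h'.2.mul h.1).mono (by omega))

lemma Eq'.one : Eq' 0 (1 : MvPolynomial (Fin v) R) 1 := by
  refine ⟨?_, ?_⟩
  · intro e he
    rw [coeff_one, if_neg]
    rintro rfl
    simp at he
  · rw [sub_self]; exact Lt.zero _

lemma Eq'.pow {d : ℕ} {A B : MvPolynomial (Fin v) R} (h : Eq' d A B) (n : ℕ) :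
    Eq' (d * n) (A ^ n) (B ^ n) := by
  induction n with
  | zero => simpa using Eq'.one
  | succ n ih =>
    rw [pow_succ, pow_succ, Nat.mul_succ]
    exact ih.mul h

lemma Eq'.prod {ι : Type} (s : Finset ι) (d : ι → ℕ) (A B : ι → MvPolynomial (Fin v) R)
    (h : ∀ i ∈ s, Eq' (d i) (A i) (B i)) :
    Eq' (∑ i ∈ s, d i) (∏ i ∈ s, A i) (∏ i ∈ s, B i) := by
  classical
  induction s using Finset.induction_on with
  | empty => simpa using Eq'.one
  | insert i s hi ih =>
    rw [Finset.sum_insert hi, Finset.prod_insert hi, Finset.prod_insert hi]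
    exact (h i (Finset.mem_insert_self _ _)).mul
      (ih fun j hj => h j (Finset.mem_insert_of_mem hj))

lemma Eq'.X (i : Fin v) : Eq' 1 (X i : MvPolynomial (Fin v) R) (X i) := by
  refine ⟨?_, ?_⟩
  · intro e he
    rw [coeff_X, if_neg]
    rintro rfl
    simp [Finsupp.single_apply] at he
  · rw [sub_self]; exact Lt.zero _

/-- The expansion map. -/
noncomputable def T {M : ℕ} (f : Fin v → MvPolynomial (Fin v) R)
    (H : (Fin v → Fin M) → MvPolynomial (Fin v) R) : MvPolynomial (Fin v) R :=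
  ∑ a : Fin v → Fin M, aeval f (H a) * ∏ i, X i ^ (a i : ℕ)

lemma T_add {M : ℕ} (f : Fin v → MvPolynomial (Fin v) R)
    (H H' : (Fin v → Fin M) → MvPolynomial (Fin v) R) : T f (H + H') = T f H + T f H' := by
  simp only [T, Pi.add_apply, map_add, add_mul, Finset.sum_add_distrib]

lemma T_sub {M : ℕ} (f : Fin v → MvPolynomial (Fin v) R)
    (H H' : (Fin v → Fin M) → MvPolynomial (Fin v) R) : T f (H - H') = T f H - T f H' := by
  simp only [T, Pi.sub_apply, map_sub, sub_mul, Finset.sum_sub_distrib]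

lemma T_zero {M : ℕ} (f : Fin v → MvPolynomial (Fin v) R) :
    T (M := M) f 0 = 0 := by
  simp [T]

lemma T_eq {M : ℕ} (f : Fin v → MvPolynomial (Fin v) R)
    (H : (Fin v → Fin M) → MvPolynomial (Fin v) R) :
    T f H = ∑ a : Fin v → Fin M, ∑ b ∈ (H a).support,
      coeff b (H a) • ((∏ i, f i ^ b i) * ∏ i, X i ^ (a i : ℕ)) := by
  unfold T
  refine Finset.sum_congr rfl fun a _ => ?_
  rw [aeval_def, eval₂_eq', Finset.sum_mul]
  refine Finset.sum_congr rfl fun b _ => ?_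
  rw [algebraMap_eq, ← smul_eq_C_mul, smul_mul_assoc]

/-- The exponent with quotient `b` and remainder `a`. -/
noncomputable def ex {M : ℕ} (b : Fin v →₀ ℕ) (a : Fin v → Fin M) : Fin v →₀ ℕ :=
  Finsupp.equivFunOnFinite.symm fun i => M * b i + (a i : ℕ)

lemma ex_apply {M : ℕ} (b : Fin v →₀ ℕ) (a : Fin v → Fin M) (i : Fin v) :
    ex b a i = M * b i + (a i : ℕ) := rfl

lemma ex_inj {M : ℕ} {b b' : Fin v →₀ ℕ} {a a' : Fin v → Fin M} (h : ex b a = ex b' a') :
    a = a' ∧ b = b' := by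
  have h1 : ∀ i, M * b i + (a i : ℕ) = M * b' i + (a' i : ℕ) := fun i => by
    rw [← ex_apply, ← ex_apply, h]
  have h2 : ∀ i, (a i : ℕ) = a' i := fun i => by
    have := congrArg (· % M) (h1 i)
    simpa [Nat.mul_add_mod, Nat.mod_eq_of_lt (a i).2, Nat.mod_eq_of_lt (a' i).2] using this
  refine ⟨funext fun i => Fin.ext (h2 i), Finsupp.ext fun i => ?_⟩
  have hM : 0 < M := Nat.lt_of_le_of_lt (Nat.zero_le _) (a i).2
  have h3 := h1 i
  rw [h2 i] at h3
  exact Nat.eq_of_mul_eq_mul_left hM (Nat.add_right_cancel h3)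

lemma ex_surj {M : ℕ} (hM : 1 ≤ M) (e : Fin v →₀ ℕ) :
    ∃ (b : Fin v →₀ ℕ) (a : Fin v → Fin M), ex b a = e :=
  ⟨Finsupp.equivFunOnFinite.symm fun i => e i / M, fun i => ⟨e i % M, Nat.mod_lt _ hM⟩, by
    ext i
    simp [ex_apply, Nat.div_add_mod]⟩

lemma prod_monomial {M : ℕ} (b : Fin v →₀ ℕ) (a : Fin v → Fin M) :
    (∏ i, ((X i : MvPolynomial (Fin v) R) ^ M) ^ b i) * ∏ i, X i ^ (a i : ℕ) =
      monomial (ex b a) 1 := by
  rw [← Finset.prod_mul_distrib, monomial_eq, C_1, one_mul, Finsupp.prod_fintype]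
  · refine Finset.prod_congr rfl fun i _ => ?_
    rw [ex_apply, pow_add, pow_mul]
  · intro i; rw [pow_zero]

lemma coeff_T0 {M : ℕ} (H : (Fin v → Fin M) → MvPolynomial (Fin v) R) (b : Fin v →₀ ℕ)
    (a : Fin v → Fin M) :
    coeff (ex b a) (T (fun i => (X i : MvPolynomial (Fin v) R) ^ M) H) = coeff b (H a) := by
  classical
  rw [T_eq, coeff_sum, Finset.sum_eq_single a]
  · rw [coeff_sum]
    simp only [prod_monomial, coeff_smul, coeff_monomial]
    rw [Finset.sum_eq_single b]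
    · simp
    · intro c _ hc
      rw [if_neg, smul_zero]
      intro h
      exact hc (ex_inj h).2
    · intro hb
      rw [notMem_support_iff] at hb
      rw [hb, zero_smul]
  · intro c _ hc
    rw [coeff_sum]
    simp only [prod_monomial, coeff_smul, coeff_monomial]
    apply Finset.sum_eq_zero
    intro d _
    rw [if_neg, smul_zero]
    intro h
    exact hc (ex_inj h).1
  · intro h; exact absurd (Finset.mem_univ _) h

lemma T0_surj {M : ℕ} (hM : 1 ≤ M) (G : MvPolynomial (Fin v) R) :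
    ∃ H : (Fin v → Fin M) → MvPolynomial (Fin v) R,
      T (fun i => (X i : MvPolynomial (Fin v) R) ^ M) H = G := by
  classical
  induction G using MvPolynomial.induction_on' with
  | monomial e r =>
    obtain ⟨b, a, rfl⟩ := ex_surj hM e
    refine ⟨Pi.single a (monomial b r), ?_⟩
    ext e'
    obtain ⟨b', a', rfl⟩ := ex_surj hM e'
    rw [coeff_T0, coeff_monomial]
    by_cases h : a' = a
    · subst h
      rw [Pi.single_eq_same, coeff_monomial]
      by_cases hb : b = b'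
      · subst hb; simp
      · rw [if_neg hb, if_neg]
        intro h; exact hb (ex_inj h).2
    · rw [Pi.single_eq_of_ne h, coeff_zero, if_neg]
      intro h'; exact h (ex_inj h').1.symm
  | add p q hp hq =>
    obtain ⟨H, hH⟩ := hp
    obtain ⟨H', hH'⟩ := hq
    exact ⟨H + H', by rw [T_add, hH, hH']⟩

/-- The filtration on the coefficient side. -/
def Fh {M : ℕ} (d : ℕ) (H : (Fin v → Fin M) → MvPolynomial (Fin v) R) : Prop :=
  ∀ (a : Fin v → Fin M) (b : Fin v →₀ ℕ), d ≤ ∑ i, ex b a i → coeff b (H a) = 0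

lemma fh_iff {M : ℕ} (hM : 1 ≤ M) (d : ℕ) (H : (Fin v → Fin M) → MvPolynomial (Fin v) R) :
    Fh d H ↔ Lt d (T (fun i => (X i : MvPolynomial (Fin v) R) ^ M) H) := by
  constructor
  · intro h e he
    obtain ⟨b, a, rfl⟩ := ex_surj hM e
    rw [coeff_T0]
    exact h a b he
  · intro h a b hab
    rw [← coeff_T0]
    exact h _ hab

lemma lt_sub {M d : ℕ} (f : Fin v → MvPolynomial (Fin v) R)
    (hf : ∀ i, Eq' M (f i) (X i ^ M)) (H : (Fin v → Fin M) → MvPolynomial (Fin v) R)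
    (hH : Fh (d + 1) H) :
    Lt d (T f H - T (fun i => (X i : MvPolynomial (Fin v) R) ^ M) H) := by
  rw [T_eq, T_eq, ← Finset.sum_sub_distrib]
  apply Lt.sum
  intro a _
  rw [← Finset.sum_sub_distrib]
  apply Lt.sum
  intro b hb
  rw [← smul_sub]
  apply Lt.smul
  have h1 : Eq' (∑ i, M * b i) (∏ i, f i ^ b i)
      (∏ i, ((X i : MvPolynomial (Fin v) R) ^ M) ^ b i) :=
    Eq'.prod _ _ _ _ fun i _ => (hf i).pow _
  have h2 : Eq' (∑ i, 1 * (a i : ℕ)) (∏ i, (X i : MvPolynomial (Fin v) R) ^ (a i : ℕ))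
      (∏ i, (X i : MvPolynomial (Fin v) R) ^ (a i : ℕ)) :=
    Eq'.prod _ _ _ _ fun i _ => (Eq'.X i).pow _
  have h3 := (h1.mul h2).2
  refine h3.mono ?_
  by_contra hcon
  have : d + 1 ≤ ∑ i, ex b a i := by
    have h4 : ∑ i, ex b a i = ∑ i, M * b i + ∑ i, 1 * (a i : ℕ) := by
      rw [← Finset.sum_add_distrib]
      refine Finset.sum_congr rfl fun i _ => ?_
      rw [ex_apply, one_mul]
    omega
  exact (mem_support_iff.1 hb) (hH a b this)

lemma surj {M : ℕ} (hM : 1 ≤ M) (f : Fin v → MvPolynomial (Fin v) R)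
    (hf : ∀ i, Eq' M (f i) (X i ^ M)) (d : ℕ) :
    ∀ G : MvPolynomial (Fin v) R, Lt d G →
      ∃ H : (Fin v → Fin M) → MvPolynomial (Fin v) R, T f H = G := by
  induction d with
  | zero => intro G hG; exact ⟨0, by rw [T_zero, hG.eq_zero]⟩
  | succ d ih =>
    intro G hG
    obtain ⟨H, rfl⟩ := T0_surj hM G
    have h1 := lt_sub f hf H ((fh_iff hM _ _).2 hG)
    obtain ⟨H', hH'⟩ := ih _ h1.neg
    refine ⟨H + H', ?_⟩
    rw [T_add, hH']
    ring

lemma inj {M : ℕ} (hM : 1 ≤ M) (f : Fin v → MvPolynomial (Fin v) R)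
    (hf : ∀ i, Eq' M (f i) (X i ^ M)) (d : ℕ) :
    ∀ H : (Fin v → Fin M) → MvPolynomial (Fin v) R, Fh d H → T f H = 0 → H = 0 := by
  induction d with
  | zero =>
    intro H hH _
    funext a
    ext b
    rw [hH a b (Nat.zero_le _), Pi.zero_apply, coeff_zero]
  | succ d ih =>
    intro H hH h0
    have h1 := lt_sub f hf H hH
    rw [h0, zero_sub] at h1
    have h2 := h1.neg
    rw [neg_neg] at h2
    exact ih H ((fh_iff hM _ _).2 h2) h0

lemma fh_exists {M : ℕ} (H : (Fin v → Fin M) → MvPolynomial (Fin v) R) : ∃ d, Fh d H := by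
  classical
  refine ⟨(∑ a : Fin v → Fin M, ∑ b ∈ (H a).support, ∑ i, ex b a i) + 1, ?_⟩
  intro a b h
  by_contra hb
  have h1 : ∑ i, ex b a i ≤ ∑ b ∈ (H a).support, ∑ i, ex b a i :=
    Finset.single_le_sum (f := fun b => ∑ i, ex b a i) (fun _ _ => Nat.zero_le _)
      (mem_support_iff.2 hb)
  have h2 : ∑ b ∈ (H a).support, ∑ i, ex b a i ≤
      ∑ a : Fin v → Fin M, ∑ b ∈ (H a).support, ∑ i, ex b a i :=
    Finset.single_le_sum (f := fun a => ∑ b ∈ (H a).support, ∑ i, ex b a i)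
      (fun _ _ => Nat.zero_le _) (Finset.mem_univ a)
  omega

theorem bas_core {M : ℕ} (hM : 1 ≤ M) (f : Fin v → MvPolynomial (Fin v) R)
    (hf : ∀ i, ∃ g : MvPolynomial (Fin v) R, g.totalDegree < M ∧ f i = g + X i ^ M)
    (G : MvPolynomial (Fin v) R) :
    ∃! H : (Fin v → Fin M) → MvPolynomial (Fin v) R,
      G = ∑ a : Fin v → Fin M, aeval f (H a) * ∏ i, X i ^ (a i : ℕ) := by
  have hf' : ∀ i, Eq' M (f i) (X i ^ M) := by
    intro i
    obtain ⟨g, hg, hi⟩ := hf i
    refine ⟨?_, ?_⟩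
    · have := ((Eq'.X (R := R) i).pow M).1
      rwa [one_mul] at this
    · rw [hi, add_sub_cancel_right]
      exact Lt.of_totalDegree hg
  obtain ⟨H, hH⟩ := surj hM f hf' (G.totalDegree + 1) G (Lt.of_totalDegree (Nat.lt_succ_self _))
  refine ⟨H, hH.symm, ?_⟩
  intro H' hH'
  have hH'' : T f H' = G := hH'.symm
  obtain ⟨d, hd⟩ := fh_exists (H' - H)
  have := inj hM f hf' d (H' - H) hd (by rw [T_sub, hH'', hH, sub_self])
  exact sub_eq_zero.1 this

/-- The statement of the project. -/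
theorem bas : Pool.Agent.Y234.EM.S_BAS := by
  intro R _ v M f hf G
  exact bas_core hf.1 f hf.2 G

end Pool.Agent.Y455.EM
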